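import Pool.Agent.Run7.h469.Tm
import Pool.Agent.Results.MP_bae66e_nt.AsymptoticEveryModulus
import Pool.Agent.Results.MP_bae66e_nt.EveryModulusSevenTenths

/-!
# Goldbach pairs with a small prime: trajectories of the `3 x + 1` map

Let `T(x) = x / 2` for even and `T(x) = (q x + c) / 2` for odd `x` (`q`, `c` odd and coprime; `q = 3`, `c = 1` is the map of
Collatz). For almost all starting values `m`, ALL the even numbers `n` among the first `κ log m` members
`T^k(m)` of the trajectory of `m` and their multiples `u T^k(m)`, `u ≤ (log m)^U`, are sums of two primes one of which is at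
most `n / (log n)^W` (`g(n) ≤ n / (log n)^W`), and the number of the representations in all windows of length at least
`n / (log n)^W` is up to the factor `1 ± ε` the one predicted by Hardy and Littlewood, if `κ < 1 / (log 2 + (log q) / 4)`, and
at least `1 / 20` of it, if `κ < 1 / (log 2 + 3 (log q) / 14)`.
The exceptional set has at most `N / (log N)^A` elements up to `N`, for every `A`. For the map of Collatz one can take `κ = 1.03` and `κ = 1.07`. The trajectory of a
typical `m` under the map of Collatz reaches `1` after about `6.95 log m` steps, so this is about the first seventh of the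
whole trajectory; with `u = 2` the result contains all the members `3 x + 1` which are left out by `T`.

Definitions used: from `Run7/h469/Tm`: `T q c`, `exceptionalStarts q c P κ U N` (the `m ≤ N` for which `P (u * T^k(m))` is
false for some `k ≤ κ log N`, `1 ≤ u ≤ (log N)^U`), `AlmostAll`; from the starting files `AsymptoticEveryModulus.Holds ε W m`: there
is a prime `p ≤ m / (log m)^W` such that `m - p` is a prime, and in every window `(y₁, y₂]` of `(0, m]` of a length of at
least `m / (log m)^W` the number of the primes `p`, for which `m - p` is a prime, is `sing m (y₂ - y₁) / (log m)²` up to the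
factor `1 ± ε` (`sing` is the singular series); `EveryModulusSevenTenths.Holds W m`: the same with the lower bound `1 / 20`.

Proof. On a residue class `r` modulo `2^k` the map `T^k` is affine, `T^k(2^k v + r) = q^a v + T^k(r)`, where `a` is the number
of the odd members among the first `k` members, and `T^k(r)` is prime to `q` if `a > 0`. So the `k`-th members of the
trajectories that start in this class run through a residue class of the large modulus `q^a` which is prime to the modulus.
The theorem of the starting files on all residue classes of all large moduli can be applied if `a` is not much larger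
than `k / 2`; the other classes are few, by the identity `∑_r z^(a(r)) = (1 + z)^k`.
-/

set_option autoImplicit false

namespace Pool.Agent.Results.MP_bae66e_nt.CollatzTrajectories

open Finset Filter Topology
open Run7.h469.CT (Few)
open Run7.h469.Tm

/-- `m` is the sum of two primes one of which is at most `m / (log m)^W`, that is `g(m) ≤ m / (log m)^W`. -/
def SmallSummand (W m : ℕ) : Prop := ∃ p : ℕ, p.Prime ∧ (m - p).Prime ∧ (p : ℝ) ≤ m / Real.log m ^ W

theorem few_asymptotic (ε : ℝ) (hε : 0 < ε) (W : ℕ) :
    Few (2 / 3) (fun n => Even n → AsymptoticEveryModulus.Holds ε W n) :=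
  few_even _ _ (fun ρ hρ A T => AsymptoticEveryModulus.result ε ρ hε hρ W A T)

theorem few_lower (W : ℕ) : Few (7 / 10) (fun n => Even n → EveryModulusSevenTenths.Holds W n) :=
  few_even _ _ (fun ρ hρ A T => EveryModulusSevenTenths.result ρ hρ W A T)

/-- almost all trajectories of the map of Collatz -/
theorem collatz (W U : ℕ) : AlmostAll (fun m => ∀ k u : ℕ, (k : ℝ) ≤ 107 / 100 * Real.log m → 1 ≤ u →
    (u : ℝ) ≤ Real.log m ^ U → Even (u * (T 3 1)^[k] m) → SmallSummand W (u * (T 3 1)^[k] m)) := by
  refine AlmostAll.mono ?_ (collatz_seven_tenths _ (few_lower W) U)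
  intro m h k u h1 h2 h3 h4
  exact (h k u h1 h2 h3 h4).1

/-- **Goldbach pairs with a small prime: trajectories.** Let `q`, `c` be odd and coprime.
(1) If `κ (log 2 + (log q) / 4) < 1`, then for all large `N` and all `m ≤ N` with at most `N / (log N)^A` exceptions
ALL the even integers `n = u * T^k(m)`, `k ≤ κ log N`, `1 ≤ u ≤ (log N)^U`, satisfy `AsymptoticEveryModulus.Holds ε W n`.
(2) The same with `EveryModulusSevenTenths.Holds W n`, if only `κ (log 2 + (3 / 14) log q) < 1`.
(3) In particular for almost all `m` all the even integers `n = u * T^k(m)`, `k ≤ 1.07 log m`, `1 ≤ u ≤ (log m)^U`, where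
`T(x) = x / 2` or `(3 x + 1) / 2`, satisfy `g(n) ≤ n / (log n)^W`, for every `W`. -/
theorem result :
    (∀ q c : ℕ, Odd q → Odd c → Nat.Coprime c q → ∀ κ ε : ℝ, 0 < ε → κ * (Real.log 2 + 1 / 4 * Real.log q) < 1 →
      ∀ W A U : ℕ, ∃ N₀ : ℕ, ∀ N : ℕ, N₀ ≤ N →
        ((exceptionalStarts q c (fun n => Even n → AsymptoticEveryModulus.Holds ε W n) κ U N).card : ℝ) ≤
          N / Real.log N ^ A) ∧
    (∀ q c : ℕ, Odd q → Odd c → Nat.Coprime c q → ∀ κ : ℝ, κ * (Real.log 2 + 3 / 14 * Real.log q) < 1 →
      ∀ W A U : ℕ, ∃ N₀ : ℕ, ∀ N : ℕ, N₀ ≤ N →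
        ((exceptionalStarts q c (fun n => Even n → EveryModulusSevenTenths.Holds W n) κ U N).card : ℝ) ≤
          N / Real.log N ^ A) ∧
    ∀ W U : ℕ, AlmostAll (fun m => ∀ k u : ℕ, (k : ℝ) ≤ 107 / 100 * Real.log m → 1 ≤ u → (u : ℝ) ≤ Real.log m ^ U →
      Even (u * (T 3 1)^[k] m) → SmallSummand W (u * (T 3 1)^[k] m)) :=
  ⟨fun q c hq hc hcq κ ε hε hκ W A U => starts_two_thirds q c hq hc hcq κ hκ _ (few_asymptotic ε hε W) A U,
    fun q c hq hc hcq κ hκ W A U => starts_seven_tenths q c hq hc hcq κ hκ _ (few_lower W) A U,
    collatz⟩

end Pool.Agent.Results.MP_bae66e_nt.CollatzTrajectories
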