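import Mathlib
import Pool.Agent.Run7.h880.MK.Fin

/-!
# MP_bae66e_nt: random primes as Goldbach summands

The function `g(m)` of the problem runs through the sequence `2, 3, 5, 7, ...` of all primes until `m - p` is prime. Here the
sequence of all primes is replaced by a random sequence `w 0, w 1, ...` of primes up to `H`, where `H` may be as small as
`N^(1/3) log^C N`. Outside of a FIXED set `E` of at most `N / log^U N` even integers (it does not depend on the sequence):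

* for every `m`, for all but a proportion `exp(-ε² m / (100 log N))` of the `m`-tuples of primes up to `H`, all even `n ≤ N`
  outside of `E`, with at most `2 N exp(-ε² m / (100 log N))` exceptions (none, if `m > (200/ε²) log² N`), have
  `(1 ± ε) 𝔖(n) m / log N` representations `n = w l + q`, `q` prime;
* if `m ≥ (1 + ε) log² N / (2 C₂)`, then for all but a proportion `N^(-ε/2)` of the `m`-tuples EVERY even `n ≤ N` outside of `E`
  is of the form `w l + q`, `q` prime.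
-/

set_option autoImplicit false

namespace Pool.Agent.Results.MP_bae66e_nt.RandomPrimes

open Finset
open Pool.Agent.H560R3.GB (sing C₂)

/-- the primes up to `H` -/
def primesUpTo (H : ℕ) : Finset ℕ := (Icc 1 H).filter Nat.Prime

/-- the number of the `l` for which `n - w l` is a prime -/
def count {m : ℕ} (w : Fin m → ℕ) (n : ℕ) : ℕ := (univ.filter fun l => (n - w l).Prime).card

theorem result (ε : ℝ) (hε : 0 < ε) (hε1 : ε ≤ 1) (U : ℕ) : ∃ C N₀ : ℕ, ∀ N : ℕ, N₀ ≤ N → ∀ H : ℕ,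
    (N : ℝ) ^ (1 / 3 : ℝ) * Real.log N ^ C ≤ H → (H : ℝ) * Real.log N ^ C ≤ N →
    ∃ E : Finset ℕ, (E.card : ℝ) ≤ N / Real.log N ^ U ∧
    -- samples of any size
    (∀ m : ℕ, ∃ Bad : Finset (Fin m → ℕ),
      (Bad.card : ℝ) ≤ Real.exp (-(ε ^ 2 / 100 * (m / Real.log N))) * ((primesUpTo H).card : ℝ) ^ m ∧
      ∀ w : Fin m → ℕ, (∀ l, w l ∈ primesUpTo H) → w ∉ Bad → ∃ F : Finset ℕ,
        (F.card : ℝ) ≤ 2 * Real.exp (-(ε ^ 2 / 100 * (m / Real.log N))) * N ∧
        ∀ n : ℕ, 1 ≤ n → n ≤ N → Even n → n ∉ E → n ∉ F →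
          |(count w n : ℝ) - sing n * (m / Real.log N)| ≤ ε * (sing n * (m / Real.log N))) ∧
    -- every even integer outside of `E`
    (∀ m : ℕ, (1 + ε) * Real.log N ^ 2 ≤ 2 * C₂ * m → ∃ Bad : Finset (Fin m → ℕ),
      (Bad.card : ℝ) ≤ ((primesUpTo H).card : ℝ) ^ m / (N : ℝ) ^ (ε / 2) ∧
      ∀ w : Fin m → ℕ, (∀ l, w l ∈ primesUpTo H) → w ∉ Bad →
        ∀ n : ℕ, 1 ≤ n → n ≤ N → Even n → n ∉ E → ∃ l, (n - w l).Prime) := by
  obtain ⟨C, N₀, h⟩ := Pool.Agent.Run7.h880.MK.random_primes ε hε hε1 U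
  refine ⟨C, N₀, fun N hN H hH1 hH2 => ?_⟩
  obtain ⟨E, hE1, -, hE3⟩ := h N hN H hH1 hH2
  refine ⟨E, hE1, ?_, ?_⟩
  · intro m
    obtain ⟨Bad, hB1, hB2, -⟩ := hE3 m
    refine ⟨Bad, hB1, fun w hw hwB => ?_⟩
    obtain ⟨F, hF1, hF2⟩ := hB2 w hw hwB
    refine ⟨F, hF1, fun n hn1 hn2 hn3 hn4 hn5 => ?_⟩
    have h1 := hF2 n hn1 hn2 hn3.two_dvd hn4 hn5
    have h2 : Pool.Agent.Run7.h880.MK.hits (Pool.Agent.Run7.h880.MK.GP H n) w = count w n := by
      unfold Pool.Agent.Run7.h880.MK.hits count Pool.Agent.Run7.h880.MK.GP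
      congr 1
      refine filter_congr fun l _ => ?_
      rw [mem_filter]
      exact ⟨fun h => h.2, fun h => ⟨hw l, h⟩⟩
    rw [h2] at h1
    exact h1
  · intro m hm
    obtain ⟨-, -, -, hB⟩ := hE3 m
    obtain ⟨Bad, hB1, hB2⟩ := hB hm
    exact ⟨Bad, hB1, fun w hw hwB n hn1 hn2 hn3 hn4 => hB2 w hw hwB n hn1 hn2 hn3.two_dvd hn4⟩

end Pool.Agent.Results.MP_bae66e_nt.RandomPrimes
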