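import Pool.Agent.Run7.h844.RP.GoldN
import Pool.Agent.Results.MP_bae66e_nt.ResidueFamilies

/-!
# The least prime summand of the even integers near the values of generalised polynomials at primes

Definitions used (in `Pool.Agent.H560R3.GB`): `C₂`: the twin prime constant `∏_{p > 2} (1 - 1 / (p - 1) ^ 2)`; `sing m`:
the singular series `2 C₂ ∏_{p ∣ m, p > 2} (p - 1) / (p - 2)`.

Method: exponential sums over primes with the phase of a generalised polynomial: derivative bounds uniform in the
coefficients, van der Corput differencing of all orders, bilinear sums, Vaughan's identity (after `Pool.Agent.H895R3.NK`,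
`Pool.Agent.H373R2.T7`); a discrete Fejér kernel for the passage from real numbers to their integer parts, and a kernel
estimate for the concentration on short intervals which needs only the large frequencies (library
`Pool.Agent.Run7.h844.RP`, after `Pool.Agent.N384.MQ`, `Pool.Agent.N193.PS`). The passage from such exponential sums to representations in windows is
from the starting files (`Pool.Agent.W93.PG`, `Pool.Agent.TH872`), in a generic form: `Pool.Agent.N625.DY.I`.
-/

set_option autoImplicit false

namespace Pool.Agent.Results.MP_bae66e_nt.ValuesAtPrimes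

open Finset Pool.Agent.H560R3.GB

/-- The generalised polynomial `∑ a x * t ^ x`, `x ∈ F`, with real exponents and coefficients. -/
noncomputable def genPoly (F : Finset ℝ) (a : ℝ → ℝ) (t : ℝ) : ℝ := ∑ x ∈ F, a x * t ^ x

/-- `c` is the largest exponent; it is positive and not an integer, and its coefficient is not zero. -/
def Leading (F : Finset ℝ) (a : ℝ → ℝ) (c : ℝ) : Prop :=
  c ∈ F ∧ (∀ x ∈ F, x ≤ c) ∧ 0 < c ∧ (∀ m : ℕ, c ≠ m) ∧ a c ≠ 0

/-- The number of primes `p` with `y₁ < p ≤ y₂` such that `m - p` is a prime. -/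
def R (m y₁ y₂ : ℕ) : ℕ := ((Ioc y₁ y₂).filter (fun p => p.Prime ∧ (m - p).Prime)).card

/-- (1) There is a prime `p ≤ m / log ^ A m` such that `m - p` is a prime (thus `g(m) ≤ m / log ^ A m`
in the notation of the problem); (2) in every window `(y₁, y₂]` of a length of at least `m / log ^ A m`
with `0 ≤ y₁ < y₂ ≤ m` the number of primes `p` such that `m - p` is a prime agrees with
`sing m * (y₂ - y₁) / log ^ 2 m` up to a relative error of at most `ε`. -/
def Holds (ε : ℝ) (A m : ℕ) : Prop :=
  (∃ p : ℕ, p.Prime ∧ (m - p).Prime ∧ (p : ℝ) ≤ m / Real.log m ^ A) ∧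
  ∀ y₁ y₂ : ℕ, y₁ < y₂ → y₂ ≤ m → (m : ℝ) / Real.log m ^ A ≤ (y₂ : ℝ) - y₁ →
    |(R m y₁ y₂ : ℝ) - sing m * ((y₂ : ℝ) - y₁) / Real.log m ^ 2| ≤ ε * (sing m * ((y₂ : ℝ) - y₁) / Real.log m ^ 2)

/-- `Holds` for all the even integers `m > 0` at a distance of at most `R` from the real number `y`. -/
def Near (ε : ℝ) (A : ℕ) (R y : ℝ) : Prop := ∀ m : ℕ, 0 < m → |(m : ℝ) - y| ≤ R → Even m → Holds ε A m

open Classical in
/-- Let `f` be a generalised polynomial whose largest exponent `c` is positive and not an integer, and let `A`, `W`, `U` and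
`ε > 0` be fixed. If `X` is large and `z` is any real number with `|z| ≤ X ^ c`, then all the primes `X < p ≤ 2 X`, with at
most `X / log ^ U X` exceptions, have the following property: ALL the even integers `m > 0` at a distance of at most
`log ^ W X` from `f(p) + z` are sums of a prime `q ≤ m / log ^ A m` and of a prime (thus `g(m) ≤ m / log ^ A m` in the
notation of the problem), and in all windows of a length of at least `m / log ^ A m` the number of the primes `q` for which
`m - q` is a prime is as predicted, up to a relative error of at most `ε`. -/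
theorem result (F : Finset ℝ) (a : ℝ → ℝ) (c : ℝ) (hF : Leading F a c) (A W U : ℕ) (ε : ℝ) (hε : 0 < ε) :
    ∃ X₀ : ℕ, ∀ X : ℕ, X₀ ≤ X → ∀ z : ℝ, |z| ≤ (X : ℝ) ^ c →
      (((Ioc X (2 * X)).filter fun p : ℕ => p.Prime ∧ ¬ Near ε A (Real.log X ^ W) (genPoly F a p + z)).card : ℝ) ≤
        X / Real.log X ^ U := by
  obtain ⟨m₀, hm⟩ := Pool.Agent.Results.MP_bae66e_nt.ResidueFamilies.holds_of A ε hε
  exact Pool.Agent.Run7.h844.RP.gold_primes F c hF.1 hF.2.2.2.1 hF.2.2.1 hF.2.1 a hF.2.2.2.2 (A + 1) W U m₀
    (min ε (1 / 2)) (lt_min hε (by norm_num)) (Pool.Agent.Results.MP_bae66e_nt.ResidueFamilies.Holds ε A) hm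

end Pool.Agent.Results.MP_bae66e_nt.ValuesAtPrimes
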